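import Pool.Agent.H93.PG.Targets

/-!
# Board pgs_modules, row TCW: the tiles `W` are good
-/

set_option autoImplicit false

open MeasureTheory Filter Topology Finset Pool.Agent.H93.PF Pool.Agent.H93.PG

namespace Pool.Agent.H59.PG

variable {d : ℕ} {m : ℕ → ℕ} {c : CT d m} (D : TD c)

theorem W_short (a k : ℕ) (x : ℕ) (h : x < D.L) : D.W D.L a k ⟨x, h⟩ =
    if x < c.t.Y then c.e else
      (if x < c.t.Y + D.N0 then c.t.rt (x - c.t.Y) else
        if h : x - (c.t.Y + D.N0) < D.n then D.pc a k ⟨x - (c.t.Y + D.N0), h⟩ else c.e) := by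
  unfold TD.W
  rw [if_pos rfl]

theorem W_long (a k : ℕ) (x : ℕ) (h : x < D.L + 1) : D.W (D.L + 1) a k ⟨x, h⟩ =
    if x < c.t.Y then c.e else
      (if x < c.t.Y + D.k1 then c.t.rt (x - c.t.Y) else
        if x < 2 * c.t.Y + D.k1 then c.e else
          if x < c.t.Y + D.N0 + 1 then c.t.rt (D.k2 - 1 - (x - (2 * c.t.Y + D.k1))) else
            if h : x - (c.t.Y + D.N0 + 1) < D.n then
              D.pc a k ⟨x - (c.t.Y + D.N0 + 1), h⟩ else c.e) := by
  unfold TD.W
  have e : ¬ (D.L + 1 = D.L) := by omega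
  rw [if_neg e]

/-- the content of the short tiles -/
theorem W_short_c (a k i : ℕ) (h : i < D.n) (h' : c.t.Y + D.N0 + i < D.L) :
    D.W D.L a k ⟨c.t.Y + D.N0 + i, h'⟩ = D.pc a k ⟨i, h⟩ := by
  rw [W_short, if_neg (by omega), if_neg (by omega), dif_pos (by omega)]
  congr 2
  omega

/-- the content of the long tiles -/
theorem W_long_c (a k i : ℕ) (h : i < D.n) (h' : c.t.Y + D.N0 + 1 + i < D.L + 1) :
    D.W (D.L + 1) a k ⟨c.t.Y + D.N0 + 1 + i, h'⟩ = D.pc a k ⟨i, h⟩ := by
  have hf := D.fr.len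
  have hb := D.fr.b2
  have hK := D.K2
  rw [W_long, if_neg (by omega), if_neg (by omega), if_neg (by omega), if_neg (by omega),
    dif_pos (by omega)]
  congr 2
  omega

/-- contents which agree except for the last letters are equal -/
theorem content_ext {a k a' k' : ℕ} (ha : a < D.N) (hk : k < D.Q) (ha' : a' < D.N)
    (hk' : k' < D.Q)
    (h : ∀ (i : ℕ) (h : i < D.n), i + c.t.Y < D.n → D.pc a k ⟨i, h⟩ = D.pc a' k' ⟨i, h⟩) :
    D.pc a k = D.pc a' k' := by
  classical
  have h1 := D.cc.mem a k ha hk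
  have h2 := D.cc.mem a' k' ha' hk'
  unfold VV at h1 h2
  rw [mem_filter] at h1 h2
  have e1 := h1.2.2.2.1
  have e2 := h2.2.2.2.1
  have hY := c.t.Y0
  funext x
  obtain ⟨x, hx⟩ := x
  by_cases hxY : x + c.t.Y < D.n
  · exact h x hx hxY
  · have e3 := e1.1
    obtain ⟨i, rfl⟩ : ∃ i, x = D.n - c.t.Y + i := ⟨x - (D.n - c.t.Y), by omega⟩
    rw [e1.2 i hx (by omega), e2.2 i hx (by omega)]

theorem pf_TCW (hTZW : T_TZW) (hOCR : T_OCR) (hSM3 : T_SM3) (hNEA : T_NEA) : T_TCW := by
  intro d m c D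
  have hbig := D.big
  have hK2 := D.K2
  have hY := c.t.Y0
  have hlen := D.fr.len
  have hb0 := D.fr.b0
  have hb1 := D.fr.b1
  have hb2 := D.fr.b2
  have hL : D.L = D.n + D.N0 := rfl
  have hkv : D.kv = c.t.Y + D.N0 + 1 + D.K := rfl
  -- short and long tiles differ
  have hne : ∀ a k a' k', (∀ (j : ℕ) (h : j < D.L) (h' : j < D.L + 1), j < D.kv →
      D.W D.L a k ⟨j, h⟩ = D.W (D.L + 1) a' k' ⟨j, h'⟩) → False := by
    intro a k a' k' h
    obtain ⟨j, hj, hj'⟩ := c.t.c2 (c.t.Y + D.k1) (by omega)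
    apply hj'
    have h1 := h (c.t.Y + D.k1 + j) (by omega) (by omega) (by omega)
    rw [W_short, if_neg (by omega), if_pos (by omega), W_long, if_neg (by omega),
      if_neg (by omega), if_pos (by omega)] at h1
    unfold xx
    rw [if_neg (by omega), h1, c.ye]
  refine ⟨{ L := D.L, R := c.t.Y + D.K, kv := D.kv, Q := D.Q, L2 := by omega, R0 := by omega,
            Rk := by omega, kL := by omega, m2 := c.t.m2,
            M := fun j => if j < c.t.Y then c.e else c.t.rt (j - c.t.Y), W := D.W,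
            mkr := ?_, inj := ?_, vis := ?_, uniq := ?_, small := ?_ }, rfl, rfl⟩
  · -- mkr
    rintro g (rfl | rfl) a k _ _ j h hj
    · rw [W_short]
      show _ = if j < c.t.Y then c.e else c.t.rt (j - c.t.Y)
      by_cases h1 : j < c.t.Y
      · rw [if_pos h1, if_pos h1]
      · rw [if_neg h1, if_neg h1, if_pos (by omega)]
    · rw [W_long]
      show _ = if j < c.t.Y then c.e else c.t.rt (j - c.t.Y)
      by_cases h1 : j < c.t.Y
      · rw [if_pos h1, if_pos h1]
      · rw [if_neg h1, if_neg h1, if_pos (by omega)]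
  · -- inj
    rintro g (rfl | rfl) a k a' k' ha hk ha' hk' h
    · refine D.cc.inj a k a' k' ha hk ha' hk' (content_ext D ha hk ha' hk' fun i hi hiY => ?_)
      rw [← W_short_c D a k i hi (by omega), h, W_short_c D a' k' i hi]
    · refine D.cc.inj a k a' k' ha hk ha' hk' (content_ext D ha hk ha' hk' fun i hi hiY => ?_)
      rw [← W_long_c D a k i hi (by omega), h, W_long_c D a' k' i hi]
  · -- vis
    rintro g g' (rfl | rfl) (rfl | rfl) a k a' k' ha hk ha' hk' h
    · refine D.cc.pre a k a' k' ha hk ha' hk' fun x hx hxK => ?_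
      rw [← W_short_c D a k x hx (by omega), h _ (by omega) (by omega) (by omega),
        W_short_c D a' k' x hx]
    · exact (hne a k a' k' fun j h1 h2 h3 => h j h1 h2 h3).elim
    · exact (hne a' k' a k fun j h1 h2 h3 => (h j h2 h1 h3).symm).elim
    · refine D.cc.pre a k a' k' ha hk ha' hk' fun x hx hxK => ?_
      rw [← W_long_c D a k x hx (by omega), h _ (by omega) (by omega) (by omega),
        W_long_c D a' k' x hx]
  · -- uniq
    intro B z col hT p hp
    have hz := hTZW d m c D B z col hT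
    have hp1 : ∀ i : ℕ, i < c.t.Y → z (p + i) = c.e := by
      intro i hi
      have := hp i (by omega)
      rwa [if_pos hi] at this
    refine (hOCR d m c D B z col hz p hp1).1 fun i hi => ?_
    have := hp (c.t.Y + i) (by omega)
    rw [if_neg (by omega), Nat.add_sub_cancel_left] at this
    rw [← this]
    congr 1
    push_cast
    ring
  · -- small
    intro B z col hT hcol q hq hqL i
    have hz := hTZW d m c D B z col hT
    rcases lt_or_ge q D.L with h1 | h1
    · exact hSM3 d m c D B z col hz q hq h1 i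
    · exact hNEA d m c D B z col hz hcol q h1 hqL i

end Pool.Agent.H59.PG
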